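import Pool.Agent.helper36.MP.SpecN

/-!
# MP: NR, local existence of natural maps at regular points
-/

set_option autoImplicit false

open Complex Metric Set Filter Topology MeasureTheory

noncomputable section

namespace MPS

section
variable {k : ℕ} [NeZero k]

theorem NR_BB_diff (b g : ZMod k → ℂ) (z : ℂ) (hz : ∀ j, z ≠ b j) :
    DifferentiableAt ℂ (BB b g) z := by
  have h1 : BB b g = fun z => ∑ i, (1 / (z - b i) ^ 2 + g i / (z - b i)) := rfl
  rw [h1]
  refine DifferentiableAt.fun_sum fun i _ => ?_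
  have h2 : z - b i ≠ 0 := sub_ne_zero.mpr (hz i)
  refine DifferentiableAt.add ?_ ?_
  · refine DifferentiableAt.div (by fun_prop) (by fun_prop) (pow_ne_zero 2 h2)
  · exact DifferentiableAt.div (by fun_prop) (by fun_prop) h2

theorem NR_root (b g : ZMod k → ℂ) (zs : ℂ) (hz : ∀ j, zs ≠ b j) (hB : BB b g zs ≠ 0) :
    ∃ δ > (0 : ℝ), ∃ s : ℂ → ℂ, (∀ z ∈ ball zs δ, ∀ j, z ≠ b j) ∧
      DifferentiableOn ℂ s (ball zs δ) ∧ ∀ z ∈ ball zs δ, s z ^ 2 = BB b g z ∧ s z ≠ 0 := by
  have h1 : ∀ᶠ z in 𝓝 zs, ∀ j, z ≠ b j := by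
    rw [Filter.eventually_all]
    exact fun j => isOpen_ne.mem_nhds (hz j)
  have hcont : ContinuousAt (fun z => BB b g z / BB b g zs) zs :=
    (NR_BB_diff b g zs hz).continuousAt.div_const _
  have h2 : ∀ᶠ z in 𝓝 zs, BB b g z / BB b g zs ∈ slitPlane := by
    refine hcont.eventually_mem (isOpen_slitPlane.mem_nhds ?_)
    rw [div_self hB]
    exact one_mem_slitPlane
  obtain ⟨δ, hδ, hball⟩ := Metric.eventually_nhds_iff_ball.mp (h1.and h2)
  refine ⟨δ, hδ, fun z => (BB b g zs) ^ ((1 : ℂ) / 2) *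
    Complex.exp (Complex.log (BB b g z / BB b g zs) / 2), fun z hz => (hball z hz).1, ?_, ?_⟩
  · intro z hz
    refine DifferentiableAt.differentiableWithinAt ?_
    refine DifferentiableAt.const_mul ?_ _
    refine DifferentiableAt.cexp ?_
    refine DifferentiableAt.div_const ?_ _
    refine DifferentiableAt.clog ?_ (hball z hz).2
    exact (NR_BB_diff b g z (hball z hz).1).div_const _
  · intro z hz
    have h3 : ((BB b g zs) ^ ((1 : ℂ) / 2)) ^ 2 = BB b g zs := by
      rw [one_div]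
      exact Complex.cpow_nat_inv_pow _ (by norm_num)
    have h5 : BB b g z / BB b g zs ≠ 0 := slitPlane_ne_zero (hball z hz).2
    have h4 : Complex.exp (Complex.log (BB b g z / BB b g zs) / 2) ^ 2 =
        BB b g z / BB b g zs := by
      rw [← Complex.exp_nat_mul]
      push_cast
      rw [mul_div_cancel₀ _ (two_ne_zero), Complex.exp_log h5]
    have h6 : ((BB b g zs) ^ ((1 : ℂ) / 2) *
        Complex.exp (Complex.log (BB b g z / BB b g zs) / 2)) ^ 2 = BB b g z := by
      rw [mul_pow, h3, h4, mul_div_cancel₀ _ hB]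
    refine ⟨h6, fun h0 => ?_⟩
    have h7 : ((BB b g zs) ^ ((1 : ℂ) / 2) *
        Complex.exp (Complex.log (BB b g z / BB b g zs) / 2)) = 0 := h0
    rw [h7] at h6
    apply h5
    rw [← h6]
    simp

end

theorem NR : NR_stmt := by
  intro k _ b g zs hz hB
  obtain ⟨δ, hδ, s, hav, hs, hsq⟩ := NR_root b g zs hz hB
  obtain ⟨F, hF⟩ := hs.isExactOn_ball
  have hzs : zs ∈ ball zs δ := mem_ball_self hδ
  have hFd : DifferentiableOn ℂ F (ball zs δ) := fun z hz =>
    (hF z hz).differentiableAt.differentiableWithinAt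
  have han : AnalyticAt ℂ F zs := hFd.analyticAt (isOpen_ball.mem_nhds hzs)
  have hst : HasStrictDerivAt F (s zs) zs := by
    have h1 := han.hasStrictDerivAt
    rwa [(hF zs hzs).deriv] at h1
  have hse := hst.hasStrictFDerivAt_equiv (hsq zs hzs).2
  set e := hse.toOpenPartialHomeomorph F with he
  have hcoe : ∀ z, e z = F z := fun z => rfl
  have hsrc : zs ∈ e.source := hse.mem_toOpenPartialHomeomorph_source
  have htgt : F zs ∈ e.target := hse.image_mem_toOpenPartialHomeomorph_target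
  have hsymm : e.symm (F zs) = zs := e.left_inv hsrc
  -- the target ball
  have hV : ∀ᶠ w in 𝓝 (F zs), w ∈ e.target ∧ e.symm w ∈ ball zs δ := by
    refine Filter.Eventually.and (e.open_target.mem_nhds htgt) ?_
    have h1 : ContinuousAt e.symm (F zs) := e.symm.continuousAt htgt
    refine h1.eventually_mem (isOpen_ball.mem_nhds ?_)
    rw [hsymm]
    exact hzs
  obtain ⟨r2, hr2, hball2⟩ := Metric.eventually_nhds_iff_ball.mp hV
  have hU : ∀ᶠ z in 𝓝 zs, z ∈ e.source ∧ z ∈ ball zs δ ∧ F z ∈ ball (F zs) (r2 / 2) := by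
    refine Filter.Eventually.and (e.open_source.mem_nhds hsrc)
      (Filter.Eventually.and (isOpen_ball.mem_nhds hzs) ?_)
    exact (hF zs hzs).continuousAt.eventually_mem (isOpen_ball.mem_nhds
      (mem_ball_self (half_pos hr2)))
  obtain ⟨ε, hε, hballe⟩ := Metric.eventually_nhds_iff_ball.mp hU
  refine ⟨r2 / 2, half_pos hr2, ε, hε, fun z₁ hz₁ σ hσ => ?_⟩
  obtain ⟨hz1s, hz1δ, hz1F⟩ := hballe z₁ hz₁
  have hτ2 : (σ * s z₁) ^ 2 = 1 := by rw [mul_pow, (hsq z₁ hz1δ).1, hσ]
  set τ : ℂ := σ * s z₁ with hτ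
  have hτn : ‖τ‖ = 1 := by
    have h1 : ‖τ‖ ^ 2 = 1 := by rw [← norm_pow, hτ2, norm_one]
    nlinarith [norm_nonneg τ]
  have hin : ∀ w ∈ ball (0 : ℂ) (r2 / 2), F z₁ + τ * w ∈ ball (F zs) r2 := by
    intro w hw
    rw [mem_ball_zero_iff] at hw
    rw [mem_ball, dist_eq_norm] at hz1F ⊢
    have h1 : F z₁ + τ * w - F zs = (F z₁ - F zs) + τ * w := by ring
    rw [h1]
    refine (norm_add_le _ _).trans_lt ?_
    rw [norm_mul, hτn, one_mul]
    linarith
  have hder : ∀ w ∈ ball (0 : ℂ) (r2 / 2), HasDerivAt (fun w => e.symm (F z₁ + τ * w))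
      (τ * (s (e.symm (F z₁ + τ * w)))⁻¹) w := by
    intro w hw
    obtain ⟨h1, h2⟩ := hball2 _ (hin w hw)
    have h3 : HasDerivAt e.symm (s (e.symm (F z₁ + τ * w)))⁻¹ (F z₁ + τ * w) :=
      e.hasDerivAt_symm h1 (hsq _ h2).2 (hF _ h2)
    have h4 : HasDerivAt (fun w => F z₁ + τ * w) τ w := by
      have h5 := ((hasDerivAt_id w).const_mul τ).const_add (F z₁)
      simpa using h5
    have h6 := h3.comp w h4
    rw [mul_comm]
    exact h6
  have h0 : e.symm (F z₁ + τ * 0) = z₁ := by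
    rw [mul_zero, add_zero]
    exact e.left_inv hz1s
  refine ⟨fun w => e.symm (F z₁ + τ * w), h0, ?_, ?_, ?_, ?_⟩
  · have h1 := (hder 0 (mem_ball_self (half_pos hr2))).deriv
    rw [h1, h0, hτ, mul_assoc, mul_inv_cancel₀ (hsq z₁ hz1δ).2, mul_one]
  · intro w hw
    exact (hder w hw).differentiableAt.differentiableWithinAt
  · intro w hw j
    exact hav _ (hball2 _ (hin w hw)).2 j
  · intro w hw
    have h2 := (hball2 _ (hin w hw)).2
    rw [(hder w hw).deriv, mul_pow, hτ2, one_mul, inv_pow, (hsq _ h2).1]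
    refine inv_mul_cancel₀ ?_
    rw [← (hsq _ h2).1]
    exact pow_ne_zero 2 (hsq _ h2).2

end MPS
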