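import Pool.Agent.helper36.MP.SpecP

/-!
# MP: P1L, the `L¹` bound
-/

set_option autoImplicit false

open Complex Metric Set Filter Topology MeasureTheory

noncomputable section

namespace MPS

theorem P1L_circle (r0 r : ℝ) (hr : 0 < r) (hrr : r < r0) (H : ℂ → ℂ)
    (hH : DifferentiableOn ℂ H (ball 0 r0)) (h0 : H 0 = 0) :
    ∫ θ in (0 : ℝ)..(2 * Real.pi), (H (circleMap 0 r θ)).re = 0 := by
  have h1 : DiffContOnCl ℂ H (ball 0 |r|) := by
    refine hH.diffContOnCl_ball ?_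
    rw [abs_of_pos hr]
    exact closedBall_subset_ball hrr
  have h2 := h1.circleAverage
  rw [Real.circleAverage_def, h0, smul_eq_zero] at h2
  have h3 : ∫ θ in (0 : ℝ)..(2 * Real.pi), H (circleMap 0 r θ) = 0 := by
    rcases h2 with h2 | h2
    · exfalso
      have : (2 * Real.pi)⁻¹ ≠ 0 := by positivity
      exact this h2
    · exact h2
  have hcont : Continuous fun θ : ℝ => H (circleMap 0 r θ) := by
    have hc : ContinuousOn H (ball 0 r0) := hH.continuousOn
    refine hc.comp_continuous (continuous_circleMap 0 r) fun θ => ?_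
    have : circleMap 0 r θ ∈ sphere (0 : ℂ) r := circleMap_mem_sphere 0 hr.le θ
    rw [mem_sphere, dist_zero_right] at this
    rw [mem_ball, dist_zero_right, this]
    exact hrr
  have h4 : ∫ θ in (0 : ℝ)..(2 * Real.pi), (H (circleMap 0 r θ)).re =
      (∫ θ in (0 : ℝ)..(2 * Real.pi), H (circleMap 0 r θ)).re := by
    have h5 := Complex.reCLM.intervalIntegral_comp_comm
      (hcont.intervalIntegrable (μ := volume) 0 (2 * Real.pi))
    simpa using h5
  rw [h4, h3, Complex.zero_re]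

theorem P1L_core {ι : Type} (s : Finset ι) (h : ι → ℝ → ℂ) (hc : ∀ i ∈ s, Continuous (h i))
    (h0 : ∀ i ∈ s, ∫ y in (0 : ℝ)..(2 * Real.pi), (h i y).re = 0) (D : ℝ → ENNReal)
    (hD : ∀ y, ENNReal.ofReal (∑ i ∈ s, (‖h i y‖ - (h i y).re)) ≤ D y) :
    ∫⁻ y in Ioo (0 : ℝ) (2 * Real.pi), ENNReal.ofReal (∑ i ∈ s, ‖h i y‖) ≤
      ∫⁻ y in Ioo (0 : ℝ) (2 * Real.pi), D y := by
  have hpi : (0 : ℝ) ≤ 2 * Real.pi := by positivity
  have hcu : Continuous fun y => ∑ i ∈ s, ‖h i y‖ := continuous_finsetSum s fun i hi => (hc i hi).norm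
  have hcv : Continuous fun y => ∑ i ∈ s, (h i y).re :=
    continuous_finsetSum s fun i hi => Complex.continuous_re.comp (hc i hi)
  have hcuv : Continuous fun y => ∑ i ∈ s, (‖h i y‖ - (h i y).re) :=
    continuous_finsetSum s fun i hi => (hc i hi).norm.sub (Complex.continuous_re.comp (hc i hi))
  have hint : ∀ f : ℝ → ℝ, Continuous f → IntegrableOn f (Ioo (0 : ℝ) (2 * Real.pi)) := by
    intro f hf
    exact (hf.integrableOn_Icc).mono_set Ioo_subset_Icc_self
  have h1 : ∫ y in Ioo (0 : ℝ) (2 * Real.pi), ∑ i ∈ s, (h i y).re = 0 := by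
    have hi1 : ∀ i ∈ s, IntegrableOn (fun y => (h i y).re) (Ioo (0 : ℝ) (2 * Real.pi)) :=
      fun i hi => hint _ (Complex.continuous_re.comp (hc i hi))
    rw [integral_finsetSum s hi1]
    refine Finset.sum_eq_zero fun i hi => ?_
    have h2 := h0 i hi
    rw [intervalIntegral.integral_of_le hpi, integral_Ioc_eq_integral_Ioo] at h2
    exact h2
  have h2 : ∫ y in Ioo (0 : ℝ) (2 * Real.pi), ∑ i ∈ s, (‖h i y‖ - (h i y).re) =
      ∫ y in Ioo (0 : ℝ) (2 * Real.pi), ∑ i ∈ s, ‖h i y‖ := by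
    have h3 : ∀ y, ∑ i ∈ s, (‖h i y‖ - (h i y).re) = ∑ i ∈ s, ‖h i y‖ - ∑ i ∈ s, (h i y).re :=
      fun y => Finset.sum_sub_distrib ..
    simp only [h3]
    rw [integral_sub (hint _ hcu) (hint _ hcv), h1, sub_zero]
  rw [← ofReal_integral_eq_lintegral_ofReal (hint _ hcu)
    (Filter.Eventually.of_forall fun y => Finset.sum_nonneg fun i _ => norm_nonneg _), ← h2,
    ofReal_integral_eq_lintegral_ofReal (hint _ hcuv)
    (Filter.Eventually.of_forall fun y => Finset.sum_nonneg fun i _ =>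
      sub_nonneg.mpr (Complex.re_le_norm _))]
  exact lintegral_mono fun y => hD y

theorem P1L_prod (f : ℂ → ENNReal) (hf : AEMeasurable f) :
    ∫⁻ w, f w = ∫⁻ x : ℝ, ∫⁻ y : ℝ, f (⟨x, y⟩ : ℂ) := by
  have hmp := Complex.volume_preserving_equiv_real_prod.symm
  rw [← hmp.lintegral_comp_emb Complex.measurableEquivRealProd.symm.measurableEmbedding f]
  have h1 : AEMeasurable (fun p : ℝ × ℝ => f (Complex.measurableEquivRealProd.symm p)) volume :=
    hf.comp_quasiMeasurePreserving hmp.quasiMeasurePreserving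
  rw [Measure.volume_eq_prod] at h1 ⊢
  rw [lintegral_prod _ h1]
  rfl

theorem P1L_level (A : ℕ → ℝ) (x : ℝ) (Q : ℕ) (hA : ∀ q < Q, A q ≤ A (q + 1)) :
    ∃ Q' ≤ Q, ∀ q < Q, (x < -A (q + 1) ↔ q < Q') := by
  have hmono : ∀ m ≤ Q, ∀ l ≤ m, A l ≤ A m := by
    intro m
    induction m with
    | zero => intro _ l hl; rw [Nat.le_zero.mp hl]
    | succ m ih =>
      intro hm l hl
      rcases Nat.le_succ_iff.mp hl with h | h
      · exact (ih (by omega) l h).trans (hA m (by omega))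
      · rw [h]
  clear hA
  induction Q with
  | zero => exact ⟨0, le_rfl, fun q hq => absurd hq (Nat.not_lt_zero q)⟩
  | succ Q ih =>
    by_cases h : x < -A (Q + 1)
    · refine ⟨Q + 1, le_rfl, fun q hq => ⟨fun _ => hq, fun _ => ?_⟩⟩
      have := hmono (Q + 1) le_rfl (q + 1) (by omega)
      linarith
    · obtain ⟨Q', hQ', h1⟩ := ih fun m hm l hl => hmono m (by omega) l hl
      refine ⟨Q', by omega, fun q hq => ?_⟩
      rcases Nat.lt_succ_iff_lt_or_eq.mp hq with h2 | h2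
      · exact h1 q h2
      · rw [h2]
        exact ⟨fun h3 => absurd h3 h, fun h3 => absurd h3 (by omega)⟩

/-- the part of the strip -/
def P1L_S (a : ℝ) : Set ℂ := {w : ℂ | w.re < -a ∧ 0 < w.im ∧ w.im < 2 * Real.pi}

theorem P1L_S_open (a : ℝ) : IsOpen (P1L_S a) := by
  have h1 : P1L_S a = {w : ℂ | w.re < -a} ∩ ({w : ℂ | 0 < w.im} ∩ {w : ℂ | w.im < 2 * Real.pi}) := rfl
  rw [h1]
  exact (isOpen_lt Complex.continuous_re continuous_const).inter
    ((isOpen_lt continuous_const Complex.continuous_im).inter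
      (isOpen_lt Complex.continuous_im continuous_const))

theorem P1L_exp_mem (a b : ℝ) (hab : a ≤ b) (w : ℂ) (hw : w ∈ HP b) :
    Complex.exp w ∈ ball (0 : ℂ) (Real.exp (-a)) := by
  rw [mem_ball, dist_zero_right, Complex.norm_exp]
  refine Real.exp_lt_exp.mpr ?_
  have h1 : w.re < -b := hw
  linarith

theorem P1L_exp_inj (a : ℝ) : InjOn Complex.exp (P1L_S a) := by
  intro w hw w' hw' h
  rw [Complex.exp_eq_exp_iff_exists_int] at h
  obtain ⟨m, hm⟩ := h
  have h1 := congrArg Complex.im hm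
  have h2 : ((m : ℂ) * (2 * Real.pi * Complex.I)).im = m * (2 * Real.pi) := by
    simp
  rw [Complex.add_im, h2] at h1
  have hpi := Real.pi_pos
  have h3 : m = 0 := by
    have h4 : (m : ℝ) < 1 := by
      by_contra h5
      have := hw.2.2
      have := hw'.2.1
      nlinarith
    have h5 : (-1 : ℝ) < m := by
      by_contra h5
      have := hw.2.1
      have := hw'.2.2
      nlinarith
    have h6 : m < 1 := by exact_mod_cast h4
    have h7 : -1 < m := by exact_mod_cast h5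
    omega
  rw [hm, h3]
  simp

theorem P1L_ofReal_sum_le {ι : Type} (s : Finset ι) (f : ι → ℝ) :
    ENNReal.ofReal (∑ i ∈ s, f i) ≤ ∑ i ∈ s, ENNReal.ofReal (f i) := by
  classical
  induction s using Finset.induction_on with
  | empty => simp
  | insert a s ha ih =>
    rw [Finset.sum_insert ha, Finset.sum_insert ha]
    exact ENNReal.ofReal_add_le.trans (add_le_add le_rfl ih)

/-- the comparison on one vertical line -/
theorem P1L_line (hLEA : LEA_stmt) (hLV : LV_stmt) (hA : P1A_stmt) (hU : P1U_stmt)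
    (n k : ℕ) [NeZero k] (c : ℂ) (b g : ZMod k → ℂ) (ψ : ZMod k → ℂ → ℂ)
    (R ε δ : ℝ) (A : ℕ → ℝ) (G : ℕ → ℂ → ℂ) (Q : ℕ) (h : H1 n k c b g ψ R ε δ A G Q) (x : ℝ) :
    ∫⁻ y : ℝ, ∑ q ∈ Finset.range Q, (P1L_S (A (q + 1))).indicator
      (fun w => ENNReal.ofReal (∑ j ∈ Finset.Ico 1 n, ‖bet n b g (GW G) (q + 1) j w‖))
        (⟨x, y⟩ : ℂ) ≤
    ∫⁻ y : ℝ, ∑ q ∈ Finset.range Q, (P1L_S (A (q + 1))).indicator
      (fun w => ENNReal.ofReal (dens n c b g (GW G q) w)) (⟨x, y⟩ : ℂ) := by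
  obtain ⟨Q', hQ', hlev⟩ := P1L_level A x Q h.sys.mono
  have hind : ∀ (f : ℕ → ℂ → ENNReal) (y : ℝ), ∑ q ∈ Finset.range Q,
      (P1L_S (A (q + 1))).indicator (f q) (⟨x, y⟩ : ℂ) =
      (Ioo (0 : ℝ) (2 * Real.pi)).indicator
        (fun y => ∑ q ∈ Finset.range Q', f q (⟨x, y⟩ : ℂ)) y := by
    intro f y
    by_cases hy : y ∈ Ioo (0 : ℝ) (2 * Real.pi)
    · rw [indicator_of_mem hy]
      rw [← Finset.sum_subset (Finset.range_mono hQ')]
      · refine Finset.sum_congr rfl fun q hq => ?_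
        have hq' : q < Q' := Finset.mem_range.mp hq
        have hmem : (⟨x, y⟩ : ℂ) ∈ P1L_S (A (q + 1)) :=
          ⟨(hlev q (lt_of_lt_of_le hq' hQ')).mpr hq', hy.1, hy.2⟩
        rw [indicator_of_mem hmem]
      · intro q hq hq2
        have hnot : (⟨x, y⟩ : ℂ) ∉ P1L_S (A (q + 1)) := fun hm =>
          hq2 (Finset.mem_range.mpr ((hlev q (Finset.mem_range.mp hq)).mp hm.1))
        rw [indicator_of_notMem hnot]
    · rw [indicator_of_notMem hy]
      refine Finset.sum_eq_zero fun q _ => ?_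
      have hnot : (⟨x, y⟩ : ℂ) ∉ P1L_S (A (q + 1)) := fun hm => hy ⟨hm.2.1, hm.2.2⟩
      rw [indicator_of_notMem hnot]
  simp only [hind]
  rw [lintegral_indicator measurableSet_Ioo, lintegral_indicator measurableSet_Ioo]
  rcases Nat.eq_zero_or_pos Q' with h0 | hpos
  · subst h0
    simp
  have hx : x < -A Q' := by
    have h1 := (hlev (Q' - 1) (by omega)).mpr (by omega)
    rwa [Nat.sub_add_cancel hpos] at h1
  have hmem : ∀ y : ℝ, (⟨x, y⟩ : ℂ) ∈ HP (A Q') := fun y => hx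
  have hLS : LevSys n c b g (GW G) (HP (A Q')) Q' := (hA n k c b g ψ R ε δ A G Q h).2.2.2.1 Q' hQ'
  have hopen : IsOpen (HP (A Q')) := isOpen_lt Complex.continuous_re continuous_const
  have hlea := hLEA n k c b g (GW G) (HP (A Q')) Q' h.su.hn h.su.cyc hopen hLS
  have hlv := hLV n k c b g (GW G) (HP (A Q')) Q' h.su.hn h.su.cyc hopen hLS
  have hcp : Continuous fun y : ℝ => (⟨x, y⟩ : ℂ) := by
    have h1 : (fun y : ℝ => (⟨x, y⟩ : ℂ)) = fun y : ℝ => (x : ℂ) + y * Complex.I := by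
      funext y
      apply Complex.ext <;> simp
    rw [h1]
    fun_prop
  have hcb : ∀ q < Q', ∀ j : ℕ, Continuous fun y : ℝ => bet n b g (GW G) (q + 1) j (⟨x, y⟩ : ℂ) :=
    fun q hq j => (hlea.2.2.2.2.1 q hq j).continuousOn.comp_continuous hcp hmem
  have hzero : ∀ q < Q', ∀ j ∈ Finset.Ico 1 n,
      ∫ y in (0 : ℝ)..(2 * Real.pi), (bet n b g (GW G) (q + 1) j (⟨x, y⟩ : ℂ)).re = 0 := by
    intro q hq j hj
    obtain ⟨H, hH, hH0, hHe⟩ := (hU n k c b g ψ R ε δ A G Q h).1 (q + 1) (by omega) (by omega) j hj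
    have hxq : x < -A (q + 1) := (hlev q (by omega)).mpr hq
    have h1 := P1L_circle (Real.exp (-A (q + 1))) (Real.exp x) (Real.exp_pos x)
      (Real.exp_lt_exp.mpr hxq) H hH hH0
    refine Eq.trans ?_ h1
    refine intervalIntegral.integral_congr fun y _ => ?_
    have h2 : Complex.exp (⟨x, y⟩ : ℂ) = circleMap 0 (Real.exp x) y := by
      have h3 : (⟨x, y⟩ : ℂ) = (x : ℂ) + y * Complex.I := by
        apply Complex.ext <;> simp
      rw [h3, Complex.exp_add, circleMap, zero_add, Complex.ofReal_exp]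
    show (bet n b g (GW G) (q + 1) j (⟨x, y⟩ : ℂ)).re = (H (circleMap 0 (Real.exp x) y)).re
    rw [hHe _ hxq, h2]
  have hcore := P1L_core (Finset.range Q' ×ˢ Finset.Ico 1 n)
    (fun i y => bet n b g (GW G) (i.1 + 1) i.2 (⟨x, y⟩ : ℂ))
    (fun i hi => hcb i.1 (Finset.mem_range.mp (Finset.mem_product.mp hi).1) i.2)
    (fun i hi => hzero i.1 (Finset.mem_range.mp (Finset.mem_product.mp hi).1) i.2
      (Finset.mem_product.mp hi).2)
    (fun y => ∑ q ∈ Finset.range Q', ENNReal.ofReal (dens n c b g (GW G q) (⟨x, y⟩ : ℂ))) ?_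
  · refine le_trans (le_of_eq ?_) hcore
    refine lintegral_congr fun y => ?_
    rw [Finset.sum_product, ENNReal.ofReal_sum_of_nonneg fun q _ => Finset.sum_nonneg fun j _ =>
      norm_nonneg _]
  · intro y
    rw [Finset.sum_product]
    refine le_trans (ENNReal.ofReal_le_ofReal ?_) (P1L_ofReal_sum_le _ _)
    have h1 := hlv.1 Q' le_rfl (⟨x, y⟩ : ℂ) (hmem y)
    have h2 := Complex.re_le_norm (tau b g (GW G) Q' (⟨x, y⟩ : ℂ))
    linarith

theorem P1L_GW_cont (G : ℕ → ℂ → ℂ) (q : ℕ) (a b : ℝ) (hab : a ≤ b)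
    (hG : DifferentiableOn ℂ (G q) (ball 0 (Real.exp (-a)))) :
    DifferentiableOn ℂ (GW G q) (P1L_S b) := by
  have h1 : GW G q = G q ∘ Complex.exp := rfl
  rw [h1]
  exact hG.comp Complex.differentiable_exp.differentiableOn fun w hw =>
    P1L_exp_mem a b hab w hw.1

theorem P1L (hLEA : LEA_stmt) (hLV : LV_stmt) (hA : P1A_stmt) (hU : P1U_stmt) (hMI : MI_stmt)
    (hMA : MA_stmt) : P1L_stmt := by
  intro n k _ c b g ψ R ε δ A G Q h
  have hPA := hA n k c b g ψ R ε δ A G Q h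
  have hLS : ∀ q ≤ Q, LevSys n c b g (GW G) (HP (A q)) q := hPA.2.2.2.1
  -- the sum over the levels
  have hsum : ∑ q ∈ Finset.Icc 1 Q, ∫⁻ w in {w : ℂ | w.re < -A q ∧ 0 < w.im ∧ w.im < 2 * Real.pi},
      ENNReal.ofReal (lev n c b g (GW G) q w) =
      ∑ q ∈ Finset.range Q, ∫⁻ w in P1L_S (A (q + 1)),
        ENNReal.ofReal (lev n c b g (GW G) (q + 1) w) := by
    rw [Finset.range_eq_Ico, Finset.sum_Ico_add' (fun q => ∫⁻ w in P1L_S (A q),
      ENNReal.ofReal (lev n c b g (GW G) q w)) 0 Q 1, zero_add]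
    rfl
  rw [hsum]
  have hlea := fun q (hq : q ≤ Q) => hLEA n k c b g (GW G) (HP (A q)) q h.su.hn h.su.cyc
    (isOpen_lt Complex.continuous_re continuous_const) (hLS q hq)
  have hSsub : ∀ q, P1L_S (A q) ⊆ HP (A q) := fun q w hw => hw.1
  -- measurability
  have hmeasS : ∀ q, MeasurableSet (P1L_S (A q)) := fun q => (P1L_S_open _).measurableSet
  have hbetm : ∀ q < Q, AEMeasurable (fun w => ENNReal.ofReal
      (∑ j ∈ Finset.Ico 1 n, ‖bet n b g (GW G) (q + 1) j w‖))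
      (volume.restrict (P1L_S (A (q + 1)))) := by
    intro q hq
    have h1 : ContinuousOn (fun w => ∑ j ∈ Finset.Ico 1 n, ‖bet n b g (GW G) (q + 1) j w‖)
        (P1L_S (A (q + 1))) := continuousOn_finsetSum _ fun j _ =>
      (((hlea (q + 1) hq).2.2.2.2.1 q (Nat.lt_succ_self q) j).continuousOn.mono (hSsub _)).norm
    exact (h1.aemeasurable (hmeasS _)).ennreal_ofReal
  have hGdiff : ∀ q < Q, DifferentiableOn ℂ (GW G q) (P1L_S (A (q + 1))) := fun q hq =>
    P1L_GW_cont G q (A q) (A (q + 1)) (h.sys.mono q hq) (hPA.1 q hq.le)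
  have hdensm : ∀ q < Q, AEMeasurable (fun w => ENNReal.ofReal (dens n c b g (GW G q) w))
      (volume.restrict (P1L_S (A (q + 1)))) := by
    intro q hq
    obtain ⟨-, hm2, hm3, -⟩ := hMI.1 n k c b g
    have h1 : AEMeasurable (GW G q) (volume.restrict (P1L_S (A (q + 1)))) :=
      (hGdiff q hq).continuousOn.aemeasurable (hmeasS _)
    have h2 : AEMeasurable (fun w => (Df n c b g (GW G q w) + 2 * ‖er n c b g (GW G q w)‖) *
        ‖deriv (GW G q) w‖ ^ 2) (volume.restrict (P1L_S (A (q + 1)))) := by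
      refine AEMeasurable.mul (AEMeasurable.add (hm3.comp_aemeasurable h1)
        ((hm2.comp_aemeasurable h1).norm.const_mul 2)) ?_
      exact ((measurable_deriv _).norm.pow_const 2).aemeasurable
    exact h2.ennreal_ofReal
  -- splitting of lev
  have hsplit : ∑ q ∈ Finset.range Q, ∫⁻ w in P1L_S (A (q + 1)),
        ENNReal.ofReal (lev n c b g (GW G) (q + 1) w) ≤
      (∑ q ∈ Finset.range Q, ∫⁻ w in P1L_S (A (q + 1)),
        ENNReal.ofReal (∑ j ∈ Finset.Ico 1 n, ‖bet n b g (GW G) (q + 1) j w‖)) +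
      ∑ q ∈ Finset.range Q, ∫⁻ w in P1L_S (A (q + 1)),
        ENNReal.ofReal (‖er n c b g (GW G q w)‖ * ‖deriv (GW G q) w‖ ^ 2) := by
    rw [← Finset.sum_add_distrib]
    refine Finset.sum_le_sum fun q hq => ?_
    rw [← lintegral_add_left' (hbetm q (Finset.mem_range.mp hq))]
    refine lintegral_mono fun w => ?_
    unfold lev
    refine ENNReal.ofReal_add_le.trans (le_of_eq ?_)
    congr 2
    unfold eef
    rw [norm_mul, norm_pow, mul_comm, Nat.add_sub_cancel]
  -- the first sum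
  have hmain : ∑ q ∈ Finset.range Q, ∫⁻ w in P1L_S (A (q + 1)),
        ENNReal.ofReal (∑ j ∈ Finset.Ico 1 n, ‖bet n b g (GW G) (q + 1) j w‖) ≤
      ∑ q ∈ Finset.range Q, ∫⁻ w in P1L_S (A (q + 1)),
        ENNReal.ofReal (dens n c b g (GW G q) w) := by
    have hint : ∀ f : ℕ → ℂ → ENNReal, (∀ q < Q, AEMeasurable (f q)
        (volume.restrict (P1L_S (A (q + 1))))) →
        ∑ q ∈ Finset.range Q, ∫⁻ w in P1L_S (A (q + 1)), f q w =
        ∫⁻ x : ℝ, ∫⁻ y : ℝ, ∑ q ∈ Finset.range Q, (P1L_S (A (q + 1))).indicator (f q)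
          (⟨x, y⟩ : ℂ) := by
      intro f hf
      have hf' : ∀ q ∈ Finset.range Q, AEMeasurable ((P1L_S (A (q + 1))).indicator (f q)) := by
        intro q hq
        exact (aemeasurable_indicator_iff (hmeasS _)).mpr (hf q (Finset.mem_range.mp hq))
      rw [← P1L_prod (fun w => ∑ q ∈ Finset.range Q, (P1L_S (A (q + 1))).indicator (f q) w)
        (Finset.aemeasurable_fun_sum _ hf'), lintegral_finsetSum' _ hf']
      refine Finset.sum_congr rfl fun q _ => ?_
      rw [lintegral_indicator (hmeasS _)]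
    rw [hint _ hbetm, hint _ hdensm]
    exact lintegral_mono fun x => P1L_line hLEA hLV hA hU n k c b g ψ R ε δ A G Q h x
  -- MA
  have hma := hMA n k c b g R h.su.hn h.su.cyc h.su.hc h.su.hR h.su.rho1 Q 1
    (fun q => P1L_S (A (q + 1))) (GW G) ?_ ?_
  · rw [Nat.cast_one, one_mul, one_mul] at hma
    refine hsplit.trans ((add_le_add (hmain.trans hma.1) hma.2).trans ?_)
    have h1 : 0 ≤ ∫ z in ball (0 : ℂ) R, ‖er n c b g z‖ := integral_nonneg fun z => norm_nonneg _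
    have h2 : 0 ≤ Real.log ‖rho n b‖ := Real.log_nonneg h.su.rho1.le
    have hpi := Real.pi_pos
    rw [← ENNReal.ofReal_add (by positivity) h1]
    refine ENNReal.ofReal_le_ofReal ?_
    have h3 := h.su.hE
    linarith
  · intro q hq
    refine ⟨P1L_S_open _, hGdiff q hq, ?_, ?_⟩
    · intro w hw w' hw' hww
      refine P1L_exp_inj _ hw hw' ?_
      exact hPA.2.1 q hq.le (P1L_exp_mem _ _ (h.sys.mono q hq) w hw.1)
        (P1L_exp_mem _ _ (h.sys.mono q hq) w' hw'.1) hww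
    · intro w hw
      exact hPA.2.2.1 q hq.le (P1L_exp_mem _ _ (h.sys.mono q hq) w hw.1)
  · intro z F hF
    rw [Finset.card_le_one]
    have hdis : ∀ q q', q ∈ F → q' ∈ F → ¬ q < q' := by
      intro q q' hq hq' hlt
      obtain ⟨h1, w, hw, hwz⟩ := hF q hq
      obtain ⟨h2, w', hw', hwz'⟩ := hF q' hq'
      have hd := hPA.2.2.2.2.1 q q' hlt h2
      have e1 : z ∈ G q '' ball 0 (Real.exp (-A (q + 1))) :=
        ⟨Complex.exp w, P1L_exp_mem _ _ le_rfl w hw.1, hwz⟩
      have e2 : z ∈ G q' '' ball 0 (Real.exp (-A (q' + 1))) :=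
        ⟨Complex.exp w', P1L_exp_mem _ _ le_rfl w' hw'.1, hwz'⟩
      exact Set.disjoint_left.mp hd e1 e2
    intro q hq q' hq'
    rcases Nat.lt_trichotomy q q' with h1 | h1 | h1
    · exact absurd h1 (hdis q q' hq hq')
    · exact h1
    · exact absurd h1 (hdis q' q hq' hq)

end MPS
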