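import Pool.Agent.helper36.MP.SpecC

/-!
# mp:THA: Theorem A for the exact solution `g`
-/

set_option autoImplicit false

open Complex Metric Set Filter Topology MeasureTheory

noncomputable section

namespace MPS

theorem THA (hMAINA : MAINA_stmt) (hTGP : TGP_stmt) : THA_stmt := by
  intro n d₀ hn hd₀
  obtain ⟨R, hR, ε', hε', hmain⟩ := hMAINA n d₀ hn hd₀
  have hpi : 0 < Real.pi := Real.pi_pos
  have hR0 : 0 < R := by linarith
  refine ⟨ε' / (32 * Real.pi * R), by positivity, ?_⟩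
  intro k _ c b g hk hc hcyc hrho hj hg
  by_contra hcon
  push Not at hcon
  obtain ⟨g', hg', hint⟩ := hTGP n k c b g R hn hcyc hc hR hg (ε' / 16) (by positivity)
  refine hmain k c b g' hk hc hcyc hrho hj hg' ?_
  have hlog : 0 < Real.log ‖rho n b‖ := Real.log_pos hrho
  have h1 : Real.log ‖rho n b‖ + ‖∑ i, g i‖ ≤ ε' / (32 * Real.pi * R) := hcon.le
  have h2 : (Real.log ‖rho n b‖ + ‖∑ i, g i‖) * (32 * Real.pi * R) ≤ ε' :=
    (le_div_iff₀ (by positivity)).1 h1
  have h3 : 2 * Real.pi * Real.log ‖rho n b‖ ≤ 16 * Real.pi * R * Real.log ‖rho n b‖ := by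
    apply mul_le_mul_of_nonneg_right _ hlog.le
    nlinarith
  nlinarith [h2, h3, hint]

end MPS
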